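import Pool.Agent.Helper87.ConicsFinal
import Pool.Agent.Helper87.ConicsJ1
import Pool.Agent.Helper87.ConicsJ2
import Pool.Agent.Helper87.ConicsJ3
import Pool.Agent.Helper87.ConicsS1
import Pool.Agent.Helper87.ConicsS4
import Pool.Agent.Helper87.ConicsSanity

set_option autoImplicit false

namespace Pool.Agent.Results.MP_deb346_gt.EllipsesConics

open Filter Topology Set Pool.Agent.Helper87

/-- Value at the vector `v` of the ternary quadratic form with coefficients `c`. -/
def Qf (c : Fin 6 → ℝ) (v : Fin 3 → ℝ) : ℝ :=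
  c 0 * v 0 ^ 2 + c 1 * v 1 ^ 2 + c 2 * v 2 ^ 2 + c 3 * (v 0 * v 1) + c 4 * (v 0 * v 2) +
    c 5 * (v 1 * v 2)

/-! ### Type (i): planes on an open convex subset of the affine plane -/

/-- A projective-metric plane `(M, d)` of type (i), up to completeness: `M` is a nonempty open
convex subset of the affine plane, `d` is a metric on `M` that induces the usual topology, and
`d X Y + d Y Z = d X Z` holds exactly when `Y` lies on the closed segment from `X` to `Z`.
(Values of `d` outside `M` play no role.) -/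
structure ProjPlane (M : Set (ℝ × ℝ)) (d : ℝ × ℝ → ℝ × ℝ → ℝ) : Prop where
  isOpen : IsOpen M
  convex : Convex ℝ M
  nonempty : M.Nonempty
  eq_zero : ∀ X ∈ M, ∀ Y ∈ M, (d X Y = 0 ↔ X = Y)
  symm : ∀ X ∈ M, ∀ Y ∈ M, d X Y = d Y X
  triangle : ∀ X ∈ M, ∀ Y ∈ M, ∀ Z ∈ M, d X Z ≤ d X Y + d Y Z
  topology : ∀ X ∈ M, ∀ u : ℕ → ℝ × ℝ, (∀ n, u n ∈ M) →
    (Tendsto u atTop (𝓝 X) ↔ Tendsto (fun n => d X (u n)) atTop (𝓝 0))
  segment : ∀ X ∈ M, ∀ Y ∈ M, ∀ Z ∈ M, (d X Y + d Y Z = d X Z ↔ Y ∈ segment ℝ X Z)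

/-- Completeness of the metric (part of the definition in the sense of Busemann): Cauchy sequences
converge. -/
def Complete (M : Set (ℝ × ℝ)) (d : ℝ × ℝ → ℝ × ℝ → ℝ) : Prop :=
  ∀ u : ℕ → ℝ × ℝ, (∀ n, u n ∈ M) → (∀ ε > 0, ∃ N, ∀ m ≥ N, ∀ n ≥ N, d (u m) (u n) < ε) →
    ∃ X ∈ M, Tendsto (fun n => d X (u n)) atTop (𝓝 0)

/-- The ellipse with foci `F`, `G` and radius `a`. -/
def ellipse (M : Set (ℝ × ℝ)) (d : ℝ × ℝ → ℝ × ℝ → ℝ) (F G : ℝ × ℝ) (a : ℝ) : Set (ℝ × ℝ) :=
  {X | X ∈ M ∧ d F X + d X G = 2 * a}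

/-- `S` is a quadric of the plane on `M`: the intersection of `M` with a (possibly degenerate)
conic of the projective plane. -/
def IsQuadric (M S : Set (ℝ × ℝ)) : Prop :=
  ∃ c : Fin 6 → ℝ, c ≠ 0 ∧ S = {X | X ∈ M ∧ Qf c ![1, X.1, X.2] = 0}

/-- Every ellipse (with distinct foci) is a quadric. -/
def EllipsesQuadrics (M : Set (ℝ × ℝ)) (d : ℝ × ℝ → ℝ × ℝ → ℝ) : Prop :=
  ∀ F ∈ M, ∀ G ∈ M, F ≠ G → ∀ a : ℝ, d F G / 2 < a → IsQuadric M (ellipse M d F G a)

/-- The plane is the Euclidean plane: `M` is the whole affine plane and a linear bijection of `ℝ²`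
onto the Euclidean plane carries `d` to the Euclidean distance. -/
def EuclideanModel (M : Set (ℝ × ℝ)) (d : ℝ × ℝ → ℝ × ℝ → ℝ) : Prop :=
  M = univ ∧ ∃ T : (ℝ × ℝ) ≃ₗ[ℝ] EuclideanSpace ℝ (Fin 2), ∀ X Y, d X Y = dist (T X) (T Y)

/-- Homogeneous coordinates of the image of the point `X` under the projective map with
matrix `b`. -/
def hom (b : Matrix (Fin 3) (Fin 3) ℝ) (X : ℝ × ℝ) (i : Fin 3) : ℝ :=
  b i 0 + b i 1 * X.1 + b i 2 * X.2

/-- The projective map with matrix `b`, in affine coordinates. -/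
noncomputable def proj (b : Matrix (Fin 3) (Fin 3) ℝ) (X : ℝ × ℝ) : ℝ × ℝ :=
  (hom b X 1 / hom b X 0, hom b X 2 / hom b X 0)

/-- The open unit disc. -/
def disc : Set (ℝ × ℝ) := {p | p.1 ^ 2 + p.2 ^ 2 < 1}

/-- The plane is the Cayley-Klein model of the hyperbolic plane, up to scaling: an invertible
projective map, defined on `M`, maps `M` bijectively onto the open unit disc and carries `d` to
`κ` times the distance `ρ` given by `cosh ρ = (1 - p ⬝ q) / (√(1 - |p|²) √(1 - |q|²))` (the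
Hilbert metric of the disc, up to a factor). -/
def HyperbolicModel (M : Set (ℝ × ℝ)) (d : ℝ × ℝ → ℝ × ℝ → ℝ) : Prop :=
  ∃ κ : ℝ, 0 < κ ∧ ∃ b : Matrix (Fin 3) (Fin 3) ℝ, b.det ≠ 0 ∧ (∀ X ∈ M, 0 < hom b X 0) ∧
    BijOn (proj b) M disc ∧
    ∀ X ∈ M, ∀ Y ∈ M, Real.cosh (d X Y / κ) =
      (1 - ((proj b X).1 * (proj b Y).1 + (proj b X).2 * (proj b Y).2)) /
        (Real.sqrt (1 - ((proj b X).1 ^ 2 + (proj b X).2 ^ 2)) *
          Real.sqrt (1 - ((proj b Y).1 ^ 2 + (proj b Y).2 ^ 2)))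

/-! ### Type (ii): planes on the projective plane -/

/-- Homogeneous coordinates: the points of the projective plane are the nonzero vectors, up to
nonzero factors. -/
abbrev E3 := EuclideanSpace ℝ (Fin 3)

/-- A projective-metric plane of type (ii), in homogeneous coordinates: `d` is a metric on the
projective plane (the nonzero vectors of `ℝ³` up to nonzero factors), continuous for the usual
topology, and every projective line is a closed geodesic of length `l`: it has a parametrisation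
by arc length with period `l`. -/
structure EllipticPlane (l : ℝ) (d : E3 → E3 → ℝ) : Prop where
  smul : ∀ v w, v ≠ 0 → w ≠ 0 → ∀ a : ℝ, a ≠ 0 → d (a • v) w = d v w
  symm : ∀ v w, v ≠ 0 → w ≠ 0 → d v w = d w v
  self : ∀ v, v ≠ 0 → d v v = 0
  pos : ∀ v w, LinearIndependent ℝ ![v, w] → 0 < d v w
  triangle : ∀ u v w, u ≠ 0 → v ≠ 0 → w ≠ 0 → d u w ≤ d u v + d v w
  cont : ContinuousOn (fun p : E3 × E3 => d p.1 p.2) {p | p.1 ≠ 0 ∧ p.2 ≠ 0}
  line : ∀ v w, LinearIndependent ℝ ![v, w] → ∃ θ : ℝ → ℝ, Continuous θ ∧ StrictMono θ ∧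
    (∀ t, θ (t + l) = θ t + Real.pi) ∧ ∀ s t, |s - t| ≤ l / 2 →
      d (Real.cos (θ s) • v + Real.sin (θ s) • w) (Real.cos (θ t) • v + Real.sin (θ t) • w) =
        |s - t|

/-- The ellipse with foci `f`, `g` and radius `a`. -/
def ellipseE (d : E3 → E3 → ℝ) (f g : E3) (a : ℝ) : Set E3 :=
  {v | v ≠ 0 ∧ d f v + d v g = 2 * a}

/-- `S` is a quadric: a (possibly degenerate) conic of the projective plane. -/
def IsQuadricE (S : Set E3) : Prop :=
  ∃ c : Fin 6 → ℝ, c ≠ 0 ∧ S = {v : E3 | v ≠ 0 ∧ Qf c (fun i => v i) = 0}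

/-- Every ellipse with distinct foci `f`, `g` and radius `a` such that `2 a + d f g < l` is a
quadric (`l` is the length of the lines). -/
def EllipsesQuadricsE (l : ℝ) (d : E3 → E3 → ℝ) : Prop :=
  ∀ f g : E3, LinearIndependent ℝ ![f, g] → ∀ a : ℝ, d f g / 2 < a → 2 * a + d f g < l →
    IsQuadricE (ellipseE d f g a)

/-- The plane is the elliptic plane, scaled so that the lines have length `l`: a linear bijection
of `ℝ³` carries `d` to `l / π` times the angle distance of lines through the origin. -/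
def EllipticModel (l : ℝ) (d : E3 → E3 → ℝ) : Prop :=
  ∃ T : E3 ≃ₗ[ℝ] E3, ∀ v w, v ≠ 0 → w ≠ 0 → d v w = l / Real.pi *
    min (InnerProductGeometry.angle (T v) (T w)) (Real.pi - InnerProductGeometry.angle (T v) (T w))

/-! ### The theorem -/

lemma ProjPlane.conv {M : Set (ℝ × ℝ)} {d : ℝ × ℝ → ℝ × ℝ → ℝ} (h : ProjPlane M d)
    (hc : Complete M d) : Conics.ProjPlane M d :=
  ⟨h.isOpen, h.convex, h.nonempty, h.eq_zero, h.symm, h.triangle, h.topology, h.segment, hc⟩

lemma EllipticPlane.conv {l : ℝ} (hl : 0 < l) {d : E3 → E3 → ℝ} (h : EllipticPlane l d) :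
    Elliptic.EllipticMetric (fun v w => Real.pi / l * d v w) := by
  have hπ := Real.pi_pos
  have hk : 0 < Real.pi / l := div_pos hπ hl
  refine ⟨?_, ?_, ?_, ?_, ?_, ?_, ?_⟩
  · intro v w hv hw a ha
    rw [h.smul v w hv hw a ha]
  · intro v w hv hw
    rw [h.symm v w hv hw]
  · intro v hv
    rw [h.self v hv, mul_zero]
  · intro v w hvw
    exact mul_pos hk (h.pos v w hvw)
  · intro u v w hu hv hw
    rw [← mul_add]
    exact mul_le_mul_of_nonneg_left (h.triangle u v w hu hv hw) hk.le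
  · exact continuousOn_const.mul h.cont
  · intro v w hvw
    obtain ⟨θ, h1, h2, h3, h4⟩ := h.line v w hvw
    refine ⟨fun t => θ (l / Real.pi * t), ?_, ?_, ?_, ?_⟩
    · exact h1.comp (continuous_const.mul continuous_id)
    · intro s t hst
      exact h2 (mul_lt_mul_of_pos_left hst (div_pos hl hπ))
    · intro t
      simp only
      rw [← h3]
      congr 1
      field_simp
    · intro s t hst
      have e : l / Real.pi * s - l / Real.pi * t = l / Real.pi * (s - t) := by ring
      have h5 := h4 (l / Real.pi * s) (l / Real.pi * t) (by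
        rw [e, abs_mul, abs_of_pos (div_pos hl hπ)]
        calc l / Real.pi * |s - t| ≤ l / Real.pi * (Real.pi / 2) :=
              mul_le_mul_of_nonneg_left hst (div_pos hl hπ).le
          _ = l / 2 := by field_simp)
      rw [h5, e, abs_mul, abs_of_pos (div_pos hl hπ)]
      field_simp

/-- Type (i). -/
theorem straight_type (M : Set (ℝ × ℝ)) (d : ℝ × ℝ → ℝ × ℝ → ℝ) (h : ProjPlane M d)
    (hcomp : Complete M d) :
    EllipsesQuadrics M d ↔ (EuclideanModel M d ∨ HyperbolicModel M d) := by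
  refine ⟨fun hE => ?_, fun hm F hF G hG hFG a ha => ?_⟩
  · refine Conics.straight_classical (h.conv hcomp) ?_
    intro F hF G hG hFG a ha
    obtain ⟨c, hc0, hc⟩ := hE F hF G hG hFG a (by linarith)
    refine ⟨c, hc0, fun X hX hs => ?_⟩
    have : X ∈ ellipse M d F G a := ⟨hX, hs⟩
    rw [hc] at this
    exact this.2
  · rcases hm with ⟨rfl, hm⟩ | hm
    · obtain ⟨c, hc0, hc⟩ := Conics.JJ1.euclid_ellipse hm F G (2 * a) (by linarith)
      refine ⟨c, hc0, ?_⟩
      ext X
      have := Set.ext_iff.1 hc X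
      exact ⟨fun hX => ⟨mem_univ _, this.1 hX.2⟩, fun hX => ⟨mem_univ _, this.2 hX.2⟩⟩
    · obtain ⟨c, hc0, hc⟩ := Conics.JJ2.klein_ellipse hm
        (fun X hX Y hY => Conics.ProjPlane.nonneg (h.conv hcomp) hX hY) h.symm h.triangle hF hG
        (s := 2 * a) (by linarith)
      exact ⟨c, hc0, hc⟩

/-- Type (ii). -/
theorem elliptic_type (l : ℝ) (d : E3 → E3 → ℝ) (hl : 0 < l) (h : EllipticPlane l d) :
    EllipsesQuadricsE l d ↔ EllipticModel l d := by
  refine ⟨fun hE => ?_, ?_⟩
  · have hπ := Real.pi_pos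
    have hk : 0 < Real.pi / l := div_pos hπ hl
    obtain ⟨T, hT⟩ := Elliptic.elliptic_conics (h.conv hl) (by
      intro v w hvw s h1 h2
      have e : Real.pi / l * d v w < s := h1
      have e2 : s + Real.pi / l * d v w < Real.pi := h2
      obtain ⟨c, hc0, hc⟩ := hE v w hvw (l / Real.pi * s / 2) (by
          have : d v w = l / Real.pi * (Real.pi / l * d v w) := by field_simp
          rw [this]
          have := mul_lt_mul_of_pos_left e (div_pos hl hπ)
          linarith) (by
          have e3 : d v w = l / Real.pi * (Real.pi / l * d v w) := by field_simp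
          have e4 := mul_lt_mul_of_pos_left e2 (div_pos hl hπ)
          have e5 : l / Real.pi * Real.pi = l := by field_simp
          rw [mul_add, e5, ← e3] at e4
          linarith)
      refine ⟨c, hc0, fun z hz hs => ?_⟩
      have hs' : Real.pi / l * d v z + Real.pi / l * d z w = s := hs
      have : z ∈ ellipseE d v w (l / Real.pi * s / 2) := by
        refine ⟨hz, ?_⟩
        rw [← hs']
        field_simp
      rw [hc] at this
      exact this.2)
    refine ⟨T, fun v w hv hw => ?_⟩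
    have := hT v w hv hw
    rw [← this]
    field_simp
  · rintro ⟨T, hT⟩ f g hfg a h1 h2
    have hπ := Real.pi_pos
    have hf : f ≠ 0 := by
      have := hfg.ne_zero 0
      simpa using this
    have hg : g ≠ 0 := by
      have := hfg.ne_zero 1
      simpa using this
    obtain ⟨c, hc0, hc⟩ := Elliptic.JJ3.elliptic_ellipse (div_pos hl hπ) T hT f g hf hg (2 * a)
      (by linarith) (by
        have e5 : l / Real.pi * Real.pi = l := by field_simp
        rw [e5]
        exact h2)
    exact ⟨c, hc0, hc⟩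

/-! ### The classical planes, and the two side conditions -/

theorem euclid_plane : ProjPlane univ Thales.euclidDist ∧ Complete univ Thales.euclidDist := by
  have h := Conics.JS1.projPlane_of Thales.euclid_plane Conics.euclid_proper
  exact ⟨⟨h.isOpen, h.convex, h.nonempty, h.eq_zero, h.symm, h.triangle, h.topology, h.segment⟩,
    h.complete⟩

theorem euclid_model : EuclideanModel univ Thales.euclidDist := by
  refine ⟨rfl, (LinearEquiv.finTwoArrow ℝ ℝ).symm.trans
    (WithLp.linearEquiv 2 ℝ (Fin 2 → ℝ)).symm, fun X Y => ?_⟩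
  rw [Thales.euclidDist_eq]
  rfl

theorem klein_plane : ProjPlane disc Thales.Klein.kleinDist ∧
    Complete disc Thales.Klein.kleinDist := by
  have h := Conics.JS1.projPlane_of Thales.Klein.klein_plane Conics.klein_proper
  exact ⟨⟨h.isOpen, h.convex, h.nonempty, h.eq_zero, h.symm, h.triangle, h.topology, h.segment⟩,
    h.complete⟩

theorem std_plane : EllipticPlane Real.pi Elliptic.stdDist :=
  ⟨Elliptic.std_metric.smul, Elliptic.std_metric.symm, Elliptic.std_metric.self,
    Elliptic.std_metric.pos, Elliptic.std_metric.triangle, Elliptic.std_metric.cont,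
    Elliptic.std_metric.line⟩

theorem std_model : EllipticModel Real.pi Elliptic.stdDist := by
  refine ⟨LinearEquiv.refl ℝ E3, fun v w _ _ => ?_⟩
  rw [div_self Real.pi_pos.ne', one_mul]
  rfl

lemma disc_isOpen : IsOpen disc := isOpen_lt (by fun_prop) continuous_const

lemma disc_bound {X Y : ℝ × ℝ} (hX : X ∈ disc) (hY : Y ∈ disc) :
    Thales.euclidDist X Y ≤ 2 := by
  have hX' : X.1 ^ 2 + X.2 ^ 2 < 1 := hX
  have hY' : Y.1 ^ 2 + Y.2 ^ 2 < 1 := hY
  have h : (X.1 - Y.1) ^ 2 + (X.2 - Y.2) ^ 2 ≤ 2 ^ 2 := by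
    nlinarith [sq_nonneg (X.1 + Y.1), sq_nonneg (X.2 + Y.2)]
  calc Thales.euclidDist X Y = Real.sqrt ((X.1 - Y.1) ^ 2 + (X.2 - Y.2) ^ 2) := rfl
    _ ≤ Real.sqrt (2 ^ 2) := Real.sqrt_le_sqrt h
    _ = 2 := Real.sqrt_sq (by norm_num)

lemma not_hyp (h : HyperbolicModel disc Thales.euclidDist) : False := by
  obtain ⟨κ, hκ, b, -, -, hbij, hf⟩ := h
  obtain ⟨C, hC⟩ : ∃ C, C = Real.cosh (2 / κ) := ⟨_, rfl⟩
  have hC1 : 1 ≤ C := by rw [hC]; exact Real.one_le_cosh _
  obtain ⟨s, hs⟩ : ∃ s, s = Real.sqrt (1 - 1 / (2 * C) ^ 2) := ⟨_, rfl⟩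
  have h1 : 1 / (2 * C) ^ 2 ≤ 1 / 4 := by
    apply one_div_le_one_div_of_le (by norm_num)
    nlinarith
  have h1' : 0 < 1 / (2 * C) ^ 2 := by positivity
  have hs2 : s ^ 2 = 1 - 1 / (2 * C) ^ 2 := by
    rw [hs]
    exact Real.sq_sqrt (by linarith)
  obtain ⟨X, hX, hX0⟩ := hbij.surjOn (show ((0, 0) : ℝ × ℝ) ∈ disc by simp [disc])
  obtain ⟨Y, hY, hYs⟩ := hbij.surjOn (show ((s, 0) : ℝ × ℝ) ∈ disc by
    simp only [disc, Set.mem_ofPred_eq]
    rw [hs2]
    linarith)
  have h2 := hf X hX Y hY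
  rw [hX0, hYs] at h2
  simp only at h2
  rw [hs2] at h2
  have e1 : Real.sqrt (1 - (1 - 1 / (2 * C) ^ 2 + 0 ^ 2)) = 1 / (2 * C) := by
    rw [show 1 - (1 - 1 / (2 * C) ^ 2 + (0 : ℝ) ^ 2) = (1 / (2 * C)) ^ 2 by ring]
    exact Real.sqrt_sq (by positivity)
  rw [e1] at h2
  have e2 : Real.sqrt (1 - ((0 : ℝ) ^ 2 + 0 ^ 2)) = 1 := by norm_num
  rw [e2] at h2
  have e3 : (1 - (0 * s + 0 * 0)) / (1 * (1 / (2 * C))) = 2 * C := by
    field_simp
    ring
  rw [e3] at h2
  have h3 : Real.cosh (Thales.euclidDist X Y / κ) ≤ C := by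
    rw [hC, Real.cosh_le_cosh, abs_of_nonneg (by
      have : 0 ≤ Thales.euclidDist X Y := Real.sqrt_nonneg _
      positivity), abs_of_nonneg (by positivity)]
    exact div_le_div_of_nonneg_right (disc_bound hX hY) hκ.le
  linarith

/-- The unit disc of the Euclidean plane is not complete; all its ellipses are quadrics. -/
theorem disc_example : ProjPlane disc Thales.euclidDist ∧ EllipsesQuadrics disc Thales.euclidDist ∧
    ¬ (EuclideanModel disc Thales.euclidDist ∨ HyperbolicModel disc Thales.euclidDist) := by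
  obtain ⟨h, -⟩ := euclid_plane
  have hconv : Convex ℝ disc := klein_plane.1.convex
  refine ⟨⟨disc_isOpen, hconv, klein_plane.1.nonempty, fun X _ Y _ => h.eq_zero X trivial Y trivial,
    fun X _ Y _ => h.symm X trivial Y trivial,
    fun X _ Y _ Z _ => h.triangle X trivial Y trivial Z trivial,
    fun X _ u _ => h.topology X trivial u (fun _ => trivial),
    fun X _ Y _ Z _ => h.segment X trivial Y trivial Z trivial⟩, ?_, ?_⟩
  · intro F _ G _ _ a ha
    obtain ⟨c, hc0, hc⟩ := Conics.JJ1.euclid_ellipse euclid_model.2 F G (2 * a) (by linarith)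
    refine ⟨c, hc0, ?_⟩
    ext X
    have := Set.ext_iff.1 hc X
    exact ⟨fun hX => ⟨hX.1, this.1 hX.2⟩, fun hX => ⟨hX.1, this.2 hX.2⟩⟩
  · rintro (h | h)
    · have : ((1, 0) : ℝ × ℝ) ∈ disc := by rw [h.1]; trivial
      simp [disc] at this
    · exact not_hyp h

/-- A large ellipse of the elliptic plane that is not a quadric. -/
theorem large_ellipse : ∃ f g : E3, LinearIndependent ℝ ![f, g] ∧ ∃ a : ℝ,
    Elliptic.stdDist f g / 2 < a ∧ ¬ IsQuadricE (ellipseE Elliptic.stdDist f g a) := by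
  obtain ⟨f, g, h1, h2, h3⟩ := Elliptic.JS4.large_ellipse
  refine ⟨f, g, h1, Real.pi / 3, by linarith, ?_⟩
  rintro ⟨c, hc0, hc⟩
  apply hc0
  refine h3 c fun z hz hs => ?_
  have : z ∈ ellipseE Elliptic.stdDist f g (Real.pi / 3) := ⟨hz, hs⟩
  rw [hc] at this
  exact this.2

/-- **Theorem.** (1) A complete projective-metric plane of type (i) has the property that all its
ellipses are quadrics if and only if it is a model of the Euclidean or of the hyperbolic plane.
(2) A projective-metric plane of type (ii) with lines of length `l` has the property that all its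
ellipses with foci `f ≠ g` and radius `a`, `2 a + d f g < l`, are quadrics if and only if it is a
model of the elliptic plane. (3) Completeness cannot be dropped in (1). (4) The condition
`2 a + d f g < l` cannot be dropped in (2), because the elliptic plane has large ellipses that
are not quadrics. -/
theorem result :
    (∀ M d, ProjPlane M d → Complete M d →
      (EllipsesQuadrics M d ↔ (EuclideanModel M d ∨ HyperbolicModel M d))) ∧
    (∀ l d, 0 < l → EllipticPlane l d → (EllipsesQuadricsE l d ↔ EllipticModel l d)) ∧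
    (∃ M d, ProjPlane M d ∧ EllipsesQuadrics M d ∧
      ¬ (EuclideanModel M d ∨ HyperbolicModel M d)) ∧
    (∃ d, EllipticPlane Real.pi d ∧ EllipticModel Real.pi d ∧
      ∃ f g : E3, LinearIndependent ℝ ![f, g] ∧ ∃ a : ℝ, d f g / 2 < a ∧
        ¬ IsQuadricE (ellipseE d f g a)) :=
  ⟨straight_type, elliptic_type, ⟨_, _, disc_example⟩, ⟨_, std_plane, std_model, large_ellipse⟩⟩

end Pool.Agent.Results.MP_deb346_gt.EllipsesConics
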